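import Mathlib
import Pool.Agent.Lib.MP_d81877_alI.Defs
import Pool.Agent.Lib.MP_d81877_alZF.Form

/-!
MP_d81877_al, part D, T-side: the map `p` from tensors to the commutative model `Z`.

`wd V F S I J` is the word with double sites `F`, single sites `S` (left letter `1` on `I`, `0` on
`S \ I`; right letter `3` on `J`, `2` on `S \ J`), vacuum elsewhere in `V`.
`hh V F S s v` is the trace functional of the permutation `s` of `S`: the right letter of `x` is
the left letter of `s x`.
`pm V v A B` is the coefficient of `ε_A f_B` of `p V v`.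
-/

namespace MP_d81877_alP

open Finset Function MP_d81877_alI

variable {ι K : Type*} [DecidableEq ι] [Field K]

/-- the word with double sites `F`, single sites `S`, left letters `1` on `I`, right letters `3`
on `J` -/
def wd (V F S I J : Finset ι) : Fin 4 → Finset ι :=
  ![V \ (F ∪ I), V \ (F ∪ (S \ I)), F ∪ (S \ J), F ∪ J]

/-- the trace functional of the permutation `s` on the single sites `S`, double sites `F` -/
def hh (V F S : Finset ι) (s : Equiv.Perm ι) (v : WW ι K) : K :=
  ∑ I ∈ S.powerset, v (wd V F S I (S.filter (fun x => s x ∈ I)))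

/-- the increasing cycle on `B` -/
def cyc [LinearOrder ι] (B : Finset ι) : Equiv.Perm ι := (B.sort (· ≤ ·)).formPerm

/-- the map `p`: the coefficient of `ε_A f_B` -/
def pm [LinearOrder ι] (V : Finset ι) (v : WW ι K) : D81877ZF.Z ι K := fun A B =>
  if B \ A = ∅ ∨ ¬ (A ∪ B ⊆ V) then 0
  else hh V (A ∩ B) ((A \ B) ∪ (B \ A)) (cyc (B \ A)) v

end MP_d81877_alP
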