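import Mathlib
import Pool.Agent.Lib.MP_d81877_alP.Defs
import Pool.Agent.Lib.MP_d81877_alI.Three

/-!
MP_d81877_al, part D, T-side: the trace functional `hh` in terms of `Fs`, and the potential of a
permutation (from the three term relation).
-/

namespace MP_d81877_alP

open Finset Function MP_d81877_alI

variable {ι K : Type*} [DecidableEq ι] [Fintype ι] [Field K]

omit [Fintype ι] in
theorem filter_eq_image {S I : Finset ι} {s : Equiv.Perm ι} (hs : ∀ x ∈ S, s x ∈ S)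
    (hI : I ⊆ S) : S.filter (fun x => s x ∈ I) = I.image (s⁻¹ : Equiv.Perm ι) := by
  ext x
  simp only [Finset.mem_filter, Finset.mem_image]
  constructor
  · rintro ⟨_, h2⟩
    exact ⟨s x, h2, by simp⟩
  · rintro ⟨y, hy, rfl⟩
    have h1 : s (s⁻¹ y) = y := by simp
    rw [h1]
    refine ⟨?_, hy⟩
    have h2 := image_perm_of_maps hs
    have h3 : y ∈ S.image s := by rw [h2]; exact hI hy
    obtain ⟨z, hz, hzy⟩ := Finset.mem_image.1 h3
    rw [← hzy]
    simpa using hz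

omit [Fintype ι] in
/-- words of the wrong shape do not contribute -/
theorem wd_eq_zero {V F S I J : Finset ι} {b m : ℕ} {v : WW ι K} (hv : Dm V b v)
    (hSV : S ⊆ V) (hFV : F ⊆ V) (hFS : Disjoint F S) (hF : F.card + m = b) (hI : I ⊆ S)
    (hIm : I.card ≠ m) : v (wd V F S I J) = 0 := by
  apply hv.shp
  rintro ⟨-, h, -⟩
  change (V \ (F ∪ I)).card + b = V.card at h
  have h1 : F ∪ I ⊆ V := Finset.union_subset hFV (hI.trans hSV)
  have h2 := Finset.card_sdiff_add_card_eq_card h1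
  rw [Finset.card_union_of_disjoint (hFS.mono_right hI)] at h2
  omega

omit [Fintype ι] in
theorem hh_eq_Fs {V F S : Finset ι} {b m : ℕ} {v : WW ι K} (hv : Dm V b v) (hSV : S ⊆ V)
    (hFV : F ⊆ V) (hFS : Disjoint F S) (hF : F.card + m = b)
    {s : Equiv.Perm ι} (hs : ∀ x ∈ S, s x ∈ S) :
    hh V F S s v = Fs v (V \ (F ∪ S)) F S m s⁻¹ := by
  unfold hh Fs
  symm
  have hsub : S.powersetCard m ⊆ S.powerset := by
    intro I hI
    exact Finset.mem_powerset.2 (Finset.mem_powersetCard.1 hI).1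
  rw [← Finset.sum_subset hsub]
  · apply Finset.sum_congr rfl
    intro I hI
    rw [Finset.mem_powersetCard] at hI
    rw [filter_eq_image hs hI.1]
    congr 1
    unfold wd
    have w0 : V \ (F ∪ S) ∪ (S \ I) = V \ (F ∪ I) := by
      ext y
      simp only [Finset.mem_sdiff, Finset.mem_union, not_or]
      constructor
      · rintro (⟨h1, h2, h3⟩ | ⟨h1, h2⟩)
        · exact ⟨h1, h2, fun h => h3 (hI.1 h)⟩
        · exact ⟨hSV h1, fun h => Finset.disjoint_left.1 hFS h h1, h2⟩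
      · rintro ⟨h1, h2, h3⟩
        by_cases h4 : y ∈ S
        · exact Or.inr ⟨h4, h3⟩
        · exact Or.inl ⟨h1, h2, h4⟩
    have w1 : V \ (F ∪ S) ∪ I = V \ (F ∪ (S \ I)) := by
      ext y
      simp only [Finset.mem_sdiff, Finset.mem_union, not_or]
      constructor
      · rintro (⟨h1, h2, h3⟩ | h1)
        · exact ⟨h1, h2, fun h => h3 h.1⟩
        · exact ⟨hSV (hI.1 h1), fun h => Finset.disjoint_left.1 hFS h (hI.1 h1), fun h => h.2 h1⟩
      · rintro ⟨h1, h2, h3⟩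
        by_cases h4 : y ∈ I
        · exact Or.inr h4
        · exact Or.inl ⟨h1, h2, fun h => h3 ⟨h, h4⟩⟩
    rw [w0, w1]
  · intro I hI hI'
    rw [Finset.mem_powerset] at hI
    apply wd_eq_zero hv hSV hFV hFS hF hI
    intro h
    exact hI' (Finset.mem_powersetCard.2 ⟨hI, h⟩)

omit [Fintype ι] in
theorem swap_maps {S : Finset ι} {x y : ι} (hx : x ∈ S) (hy : y ∈ S) :
    ∀ z ∈ S, Equiv.swap x y z ∈ S := by
  intro z hz
  by_cases h1 : z = x
  · rw [h1, Equiv.swap_apply_left]; exact hy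
  · by_cases h2 : z = y
    · rw [h2, Equiv.swap_apply_right]; exact hx
    · rw [Equiv.swap_apply_of_ne_of_ne h1 h2]; exact hz

omit [Fintype ι] in
theorem swap_mul_maps {S : Finset ι} {x y : ι} (hx : x ∈ S) (hy : y ∈ S) {s : Equiv.Perm ι}
    (hs : ∀ z ∈ S, s z ∈ S) : ∀ z ∈ S, (Equiv.swap x y * s) z ∈ S := by
  intro z hz
  rw [Equiv.Perm.mul_apply]
  exact swap_maps hx hy _ (hs z hz)

omit [Fintype ι] in
theorem inv_maps {S : Finset ι} {s : Equiv.Perm ι} (hs : ∀ z ∈ S, s z ∈ S) :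
    ∀ z ∈ S, (s⁻¹ : Equiv.Perm ι) z ∈ S := by
  intro z hz
  have h2 := image_perm_of_maps hs
  have h3 : z ∈ S.image s := by rw [h2]; exact hz
  obtain ⟨w, hw, hwz⟩ := Finset.mem_image.1 h3
  rw [← hwz]
  simpa using hw

omit [Fintype ι] in
/-- **the three term relation for `hh`** -/
theorem hh_three [CharP K 2] {V F S : Finset ι} {b : ℕ} {v : WW ι K} (hv : Dm V b v)
    (hSV : S ⊆ V) (hFV : F ⊆ V) (hFS : Disjoint F S) (hc : S.card + 2 * F.card = 2 * b + 1)
    {s : Equiv.Perm ι} (hs : ∀ x ∈ S, s x ∈ S) {x y z : ι} (hx : x ∈ S) (hy : y ∈ S)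
    (hz : z ∈ S) (hxy : x ≠ y) (hxz : x ≠ z) (hyz : y ≠ z) :
    hh V F S (Equiv.swap x y * s) v
      = hh V F S (Equiv.swap x z * s) v + hh V F S (Equiv.swap y z * s) v := by
  obtain ⟨m, hm⟩ : ∃ m, F.card + m = b := ⟨b - F.card, by omega⟩
  have hS : S.card = 2 * m + 1 := by omega
  rw [hh_eq_Fs hv hSV hFV hFS hm (swap_mul_maps hx hy hs),
    hh_eq_Fs hv hSV hFV hFS hm (swap_mul_maps hx hz hs),
    hh_eq_Fs hv hSV hFV hFS hm (swap_mul_maps hy hz hs)]
  have h := three (K := K) hv.prm (Z0 := V \ (F ∪ S)) (F := F) (S := S) (m := m) hS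
    (by
      rw [Finset.disjoint_left]
      intro w hw hw'
      exact (Finset.mem_sdiff.1 hw).2 (Finset.mem_union_right _ hw'))
    (by
      rw [Finset.disjoint_left]
      intro w hw hw'
      exact (Finset.mem_sdiff.1 hw).2 (Finset.mem_union_left _ hw'))
    hFS (inv_maps hs) (t := 1) (fun w hw => hw) hx hy hz hxy hxz hyz
  have e : ∀ p q : ι, (Equiv.swap p q * s)⁻¹ = s⁻¹ * Equiv.swap p q * 1 := by
    intro p q
    rw [mul_inv_rev, Equiv.swap_inv, mul_one]
  rw [e, e, e]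
  rw [add_assoc] at h
  exact CharTwo.add_eq_zero.1 h

omit [Fintype ι] in
/-- **the potential** of a permutation -/
theorem exists_pot [CharP K 2] {V F S : Finset ι} {b : ℕ} {v : WW ι K} (hv : Dm V b v)
    (hSV : S ⊆ V) (hFV : F ⊆ V) (hFS : Disjoint F S) (hc : S.card + 2 * F.card = 2 * b + 1)
    {s : Equiv.Perm ι} (hs : ∀ x ∈ S, s x ∈ S) :
    ∃ φ : ι → K, ∀ x ∈ S, ∀ y ∈ S, x ≠ y →
      hh V F S (Equiv.swap x y * s) v = φ x + φ y := by
  have hne : S.Nonempty := by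
    rw [← Finset.card_pos]
    omega
  obtain ⟨x0, hx0⟩ := hne
  refine ⟨fun x => if x = x0 then 0 else hh V F S (Equiv.swap x x0 * s) v, ?_⟩
  intro x hx y hy hxy
  simp only
  by_cases h1 : x = x0
  · rw [if_pos h1, zero_add, if_neg (fun h => hxy (h1.trans h.symm)), h1, Equiv.swap_comm]
  · by_cases h2 : y = x0
    · rw [if_neg h1, if_pos h2, add_zero, h2]
    · rw [if_neg h1, if_neg h2]
      exact hh_three hv hSV hFV hFS hc hs hx hy hx0 hxy h1 h2

end MP_d81877_alP
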