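import Mathlib
import Pool.Agent.Lib.MP_d81877_alP.Pot
import Pool.Agent.Lib.MP_d81877_alM.Defs

/-!
MP_d81877_al, part D: the two definitions of the map `p` (helper75's `pm`, helper95's
`D81877M.p`) agree; the cycle on `B` preserves every set containing `B`.
-/

namespace MP_d81877_alP

open Finset Function MP_d81877_alI

variable {ι K : Type*} [LinearOrder ι] [Field K]

theorem cyc_inv (B : Finset ι) : D81877M.cyc B = (cyc B)⁻¹ := rfl

theorem cyc_maps {B S : Finset ι} (h : B ⊆ S) : ∀ x ∈ S, cyc B x ∈ S := by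
  intro x hx
  by_cases hxB : x ∈ B
  · apply h
    have h1 : x ∈ B.sort (· ≤ ·) := by
      rw [Finset.mem_sort]
      exact hxB
    have h2 := List.formPerm_apply_mem_of_mem h1
    rw [Finset.mem_sort] at h2
    exact h2
  · have h1 : x ∉ B.sort (· ≤ ·) := by
      rw [Finset.mem_sort]
      exact hxB
    have h2 : cyc B x = x := List.formPerm_apply_of_notMem h1
    rw [h2]
    exact hx

theorem cyc_of_notMem {B : Finset ι} {x : ι} (hxB : x ∉ B) : cyc B x = x := by
  have h1 : x ∉ B.sort (· ≤ ·) := by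
    rw [Finset.mem_sort]
    exact hxB
  exact List.formPerm_apply_of_notMem h1

theorem symmDiff_eq (A B : Finset ι) : symmDiff A B = (A \ B) ∪ (B \ A) := rfl

theorem inter_union_symm (A B : Finset ι) : (A ∩ B) ∪ ((A \ B) ∪ (B \ A)) = A ∪ B := by
  ext y
  simp only [Finset.mem_union, Finset.mem_inter, Finset.mem_sdiff]
  tauto

theorem tup_eq_wd {V A B I : Finset ι} (hA : A ⊆ V) (hB : B ⊆ V) (c : Equiv.Perm ι)
    (hI : I ⊆ (A \ B) ∪ (B \ A)) :
    D81877M.tup V A B I c = wd V (A ∩ B) ((A \ B) ∪ (B \ A)) I (I.image c) := by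
  unfold D81877M.tup wd
  rw [symmDiff_eq]
  have w0 : V \ (A ∪ B) ∪ (((A \ B) ∪ (B \ A)) \ I) = V \ ((A ∩ B) ∪ I) := by
    ext y
    have h1 := @hA y
    have h2 := @hB y
    have h3 := @hI y
    simp only [Finset.mem_union, Finset.mem_inter, Finset.mem_sdiff] at h3 ⊢
    tauto
  have w1 : V \ (A ∪ B) ∪ I = V \ ((A ∩ B) ∪ (((A \ B) ∪ (B \ A)) \ I)) := by
    ext y
    have h1 := @hA y
    have h2 := @hB y
    have h3 := @hI y
    simp only [Finset.mem_union, Finset.mem_inter, Finset.mem_sdiff] at h3 ⊢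
    tauto
  rw [w0, w1]

/-- the two definitions of the map `p` agree -/
theorem pm_eq_p (V : Finset ι) (v : WW ι K) : pm V v = D81877M.p V v := by
  funext A B
  rw [D81877M.p_apply]
  unfold pm
  by_cases h : A ⊆ V ∧ B ⊆ V ∧ (B \ A).Nonempty
  · have h0 := h
    obtain ⟨hA, hB, hne⟩ := h0
    have h2 : ¬ (B \ A = ∅ ∨ ¬ (A ∪ B ⊆ V)) := by
      rintro (h1 | h1)
      · exact hne.ne_empty h1
      · exact h1 (Finset.union_subset hA hB)
    rw [if_pos h, if_neg h2]
    unfold hh
    rw [symmDiff_eq]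
    apply Finset.sum_congr rfl
    intro I hI
    rw [Finset.mem_powerset] at hI
    rw [tup_eq_wd hA hB _ hI, filter_eq_image (cyc_maps Finset.subset_union_right) hI, cyc_inv]
  · have h2 : B \ A = ∅ ∨ ¬ (A ∪ B ⊆ V) := by
      by_cases h1 : B \ A = ∅
      · exact Or.inl h1
      · right
        intro h2
        exact h ⟨Finset.subset_union_left.trans h2, Finset.subset_union_right.trans h2,
          Finset.nonempty_iff_ne_empty.2 h1⟩
    rw [if_neg h, if_pos h2]

end MP_d81877_alP
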