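import Mathlib
import Pool.Agent.Lib.MP_d81877_alP.Defs

/-!
MP_d81877_al, part D, T-side: the increasing cycle: removing and inserting an element, and a
telescoping sum.
-/

namespace MP_d81877_alP

open Finset Function

section Lists

variable {α : Type*} [DecidableEq α]

theorem formPerm_rot {l1 l2 : List α} {x : α} (h : (l1 ++ x :: l2).Nodup) :
    (l1 ++ x :: l2).formPerm = (x :: (l2 ++ l1)).formPerm := by
  apply List.formPerm_eq_of_isRotated h
  have : x :: (l2 ++ l1) = (x :: l2) ++ l1 := rfl
  rw [this]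
  exact List.isRotated_append

theorem formPerm_rot' {l1 l2 : List α} (h : (l1 ++ l2).Nodup) :
    (l1 ++ l2).formPerm = (l2 ++ l1).formPerm :=
  List.formPerm_eq_of_isRotated h List.isRotated_append

theorem nodup_rot {l1 l2 : List α} {x : α} (h : (l1 ++ x :: l2).Nodup) :
    (x :: (l2 ++ l1)).Nodup := by
  have h1 : (x :: (l2 ++ l1)) = (x :: l2) ++ l1 := rfl
  rw [h1]
  exact (List.perm_append_comm.nodup_iff).1 h

/-- the next element of `x` in the cycle -/
theorem formPerm_next {l1 l2 : List α} {x : α} (h : (l1 ++ x :: l2).Nodup) :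
    (l1 ++ x :: l2).formPerm x = (l2 ++ l1).headD x := by
  rw [formPerm_rot h]
  have h2 := nodup_rot h
  cases hl : l2 ++ l1 with
  | nil => simp
  | cons y l =>
    rw [hl] at h2
    rw [List.formPerm_apply_head _ _ _ h2]
    rfl

/-- removing `x` from the cycle -/
theorem formPerm_remove {l1 l2 : List α} {x : α} (h : (l1 ++ x :: l2).Nodup)
    (hne : l1 ++ l2 ≠ []) :
    (l1 ++ x :: l2).formPerm
      = Equiv.swap x ((l1 ++ x :: l2).formPerm x) * (l1 ++ l2).formPerm := by
  have h2 := nodup_rot h
  have h3 : (l1 ++ l2).Nodup := by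
    have := (List.nodup_cons.1 h2).2
    exact (List.perm_append_comm.nodup_iff).1 this
  rw [formPerm_next h, formPerm_rot h, formPerm_rot' h3]
  cases hl : l2 ++ l1 with
  | nil =>
    exfalso
    apply hne
    rw [List.append_eq_nil_iff] at hl ⊢
    exact ⟨hl.2, hl.1⟩
  | cons y l => rfl

theorem headD_append {l l' : List α} {d d' : α} (h : l ≠ []) :
    (l ++ l').headD d = l.headD d' := by
  cases l with
  | nil => exact absurd rfl h
  | cons a l => rfl

/-- the telescoping sum along an initial segment of the cycle -/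
theorem list_tele {K : Type*} [Field K] [CharP K 2] (φ : α → K) (d : α) :
    ∀ (l1 l2 : List α), (l1 ++ l2).Nodup →
      (l1.map (fun y => φ y + φ ((l1 ++ l2).formPerm y))).sum
        = φ ((l1 ++ l2).headD d) + φ ((l2 ++ l1).headD d) := by
  intro l1
  induction l1 with
  | nil =>
    intro l2 _
    simp [CharTwo.add_self_eq_zero]
  | cons y l1 ih =>
    intro l2 h
    have h1 : (y :: l1 ++ l2).Nodup := h
    have hrot : (y :: l1 ++ l2).formPerm = (l1 ++ (l2 ++ [y])).formPerm := by
      rw [List.formPerm_eq_of_isRotated h1 (l' := l1 ++ (l2 ++ [y]))]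
      rw [← List.append_assoc]
      exact List.isRotated_append (l := [y]) (l' := l1 ++ l2)
    have h2 : (l1 ++ (l2 ++ [y])).Nodup := by
      rw [← List.append_assoc]
      exact (List.perm_append_comm (l₁ := [y]) (l₂ := l1 ++ l2)).nodup_iff.1 h1
    rw [List.map_cons, List.sum_cons, hrot, ih (l2 ++ [y]) h2]
    have h3 : (l1 ++ (l2 ++ [y])).formPerm y = (l1 ++ (l2 ++ [y])).headD d := by
      rw [← hrot]
      have h4 := formPerm_next (l1 := ([] : List α)) (l2 := l1 ++ l2) (x := y) h1
      have h5 : (([] : List α) ++ y :: (l1 ++ l2)) = y :: l1 ++ l2 := rfl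
      rw [h5, List.append_nil] at h4
      rw [h4]
      cases hl : l1 ++ l2 with
      | nil =>
        rw [List.append_eq_nil_iff] at hl
        rw [hl.1, hl.2]
        rfl
      | cons a l =>
        rw [← List.append_assoc, hl]
        rfl
    rw [h3]
    have h6 : (y :: l1 ++ l2).headD d = y := rfl
    have h7 : (l2 ++ y :: l1).headD d = (l2 ++ [y] ++ l1).headD d := by
      rw [List.append_assoc]; rfl
    rw [h6, h7]
    have := CharTwo.add_self_eq_zero (φ ((l1 ++ (l2 ++ [y])).headD d))
    linear_combination this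

omit [DecidableEq α] in
theorem headD_eq_getElem (l : List α) (d : α) (h : 0 < l.length) : l.headD d = l[0] := by
  cases l with
  | nil => exact absurd h (lt_irrefl _)
  | cons a l => rfl

theorem formPerm_last (l : List α) (h : 0 < l.length) :
    l.formPerm (l[l.length - 1]'(by omega)) = l[0] := by
  cases l with
  | nil => exact absurd h (lt_irrefl _)
  | cons a l => exact List.formPerm_apply_getElem_length a l

end Lists

variable {ι : Type*} [LinearOrder ι]

theorem sort_eq_of {B : Finset ι} {l : List ι} (hl : l.Pairwise (· < ·))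
    (hB : ∀ x, x ∈ l ↔ x ∈ B) : B.sort (· ≤ ·) = l := by
  have hnd : l.Nodup := hl.imp (fun h => ne_of_lt h)
  have h1 : l.toFinset = B := by
    ext x
    rw [List.mem_toFinset, hB]
  rw [← h1]
  exact (List.toFinset_sort (· ≤ ·) hnd).2 (hl.imp le_of_lt)

/-- the sorted list of `B`, split at an element `x ∉ B` -/
theorem sort_split (B : Finset ι) (x : ι) (hx : x ∉ B) :
    B.sort (· ≤ ·) = (B.filter (· < x)).sort (· ≤ ·) ++ (B.filter (x < ·)).sort (· ≤ ·) := by
  apply sort_eq_of
  · rw [List.pairwise_append]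
    refine ⟨(sortedLT_sort _).pairwise, (sortedLT_sort _).pairwise, ?_⟩
    intro a ha b hb
    rw [mem_sort, mem_filter] at ha hb
    exact ha.2.trans hb.2
  · intro y
    rw [List.mem_append, mem_sort, mem_sort, mem_filter, mem_filter]
    constructor
    · rintro (h | h) <;> exact h.1
    · intro h
      rcases lt_trichotomy y x with h1 | h1 | h1
      · exact Or.inl ⟨h, h1⟩
      · exact absurd (h1 ▸ h) hx
      · exact Or.inr ⟨h, h1⟩

theorem sort_insert_split (B : Finset ι) (x : ι) :
    (insert x B).sort (· ≤ ·)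
      = (B.filter (· < x)).sort (· ≤ ·) ++ x :: (B.filter (x < ·)).sort (· ≤ ·) := by
  apply sort_eq_of
  · rw [List.pairwise_append]
    refine ⟨(sortedLT_sort _).pairwise, ?_, ?_⟩
    · rw [List.pairwise_cons]
      refine ⟨?_, (sortedLT_sort _).pairwise⟩
      intro b hb
      rw [mem_sort, mem_filter] at hb
      exact hb.2
    · intro a ha b hb
      rw [mem_sort, mem_filter] at ha
      rw [List.mem_cons, mem_sort, mem_filter] at hb
      rcases hb with rfl | hb
      · exact ha.2
      · exact ha.2.trans hb.2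
  · intro y
    rw [List.mem_append, List.mem_cons, mem_sort, mem_sort, mem_filter, mem_filter, mem_insert]
    constructor
    · rintro (h | h | h)
      · exact Or.inr h.1
      · exact Or.inl h
      · exact Or.inr h.1
    · intro h
      rcases lt_trichotomy y x with h1 | h1 | h1
      · rcases h with h | h
        · exact Or.inr (Or.inl h)
        · exact Or.inl ⟨h, h1⟩
      · exact Or.inr (Or.inl h1)
      · rcases h with h | h
        · exact Or.inr (Or.inl h)
        · exact Or.inr (Or.inr ⟨h, h1⟩)

/-- inserting an element in the cycle -/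
theorem cyc_insert {B : Finset ι} {x : ι} (hx : x ∉ B) (hB : B.Nonempty) :
    cyc (insert x B) = Equiv.swap x (cyc (insert x B) x) * cyc B := by
  unfold cyc
  have h1 : ((insert x B).sort (· ≤ ·)).Nodup := sort_nodup _ _
  have h2 : (B.sort (· ≤ ·)) ≠ [] := by
    intro h
    obtain ⟨y, hy⟩ := hB
    rw [← mem_sort (· ≤ ·), h] at hy
    exact absurd hy (List.not_mem_nil)
  rw [sort_insert_split] at h1 ⊢
  rw [sort_split B x hx] at h2 ⊢
  exact formPerm_remove h1 h2

theorem cyc_mem {B : Finset ι} {x : ι} : cyc B x ∈ B ↔ x ∈ B := by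
  unfold cyc
  rw [← mem_sort (· ≤ ·), ← mem_sort (s := B) (a := x) (· ≤ ·)]
  exact List.formPerm_mem_iff_mem

theorem cyc_fix {B : Finset ι} {x : ι} (hx : x ∉ B) : cyc B x = x := by
  unfold cyc
  apply List.formPerm_apply_of_notMem
  rwa [mem_sort]

theorem cyc_ne {B : Finset ι} {x : ι} (hx : x ∈ B) (hB : (B.erase x).Nonempty) :
    cyc B x ≠ x := by
  unfold cyc
  rw [List.formPerm_apply_mem_ne_self_iff _ (sort_nodup _ _) _ (by rwa [mem_sort]), length_sort]
  have h1 := card_erase_of_mem hx
  have h2 := card_pos.2 hB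
  omega

theorem cyc_singleton (x : ι) : cyc ({x} : Finset ι) = 1 := by
  unfold cyc
  rw [sort_singleton, List.formPerm_singleton]

theorem cyc_empty : cyc (∅ : Finset ι) = 1 := by
  unfold cyc
  rw [sort_empty, List.formPerm_nil]

/-- removing an element from the cycle -/
theorem cyc_erase {B : Finset ι} {x : ι} (hx : x ∈ B) (hB : (B.erase x).Nonempty) :
    cyc (B.erase x) = Equiv.swap x (cyc B x) * cyc B := by
  have h1 := cyc_insert (notMem_erase x B) hB
  rw [insert_erase hx] at h1
  conv_rhs => rw [h1]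
  rw [← mul_assoc, Equiv.Perm.mul_apply, cyc_fix (notMem_erase x B), Equiv.swap_apply_left,
    Equiv.swap_mul_self, one_mul]

/-- the telescoping sum -/
theorem cyc_tele {K : Type*} [Field K] [CharP K 2] (φ : ι → K) {B : Finset ι} {x : ι}
    (hx : x ∉ B) (hB : B.Nonempty) :
    ∑ y ∈ B.filter (· < x), (φ y + φ (cyc B y))
      = φ (B.min' hB) + φ (cyc (insert x B) x) := by
  set l1 := (B.filter (· < x)).sort (· ≤ ·) with hl1
  set l2 := (B.filter (x < ·)).sort (· ≤ ·) with hl2
  have hs : B.sort (· ≤ ·) = l1 ++ l2 := sort_split B x hx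
  have hs' : (insert x B).sort (· ≤ ·) = l1 ++ x :: l2 := sort_insert_split B x
  have hnd : (l1 ++ l2).Nodup := hs ▸ sort_nodup _ _
  have hnd' : (l1 ++ x :: l2).Nodup := hs' ▸ sort_nodup _ _
  have h1 := list_tele φ x l1 l2 hnd
  have h2 : cyc (insert x B) x = (l2 ++ l1).headD x := by
    unfold cyc
    rw [hs', formPerm_next hnd']
  have h3 : (l1 ++ l2).headD x = B.min' hB := by
    have hne : l1 ++ l2 ≠ [] := by
      intro h
      obtain ⟨y, hy⟩ := hB
      rw [← mem_sort (· ≤ ·), hs, h] at hy
      exact absurd hy (List.not_mem_nil)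
    rw [← hs] at hne ⊢
    rw [min'_eq_sorted_zero]
    exact headD_eq_getElem _ _ (List.length_pos_iff.2 hne)
  have h4 : ∑ y ∈ B.filter (· < x), (φ y + φ (cyc B y))
      = (l1.map (fun y => φ y + φ ((l1 ++ l2).formPerm y))).sum := by
    have h5 : (B.filter (· < x)) = l1.toFinset := by
      rw [hl1, sort_toFinset]
    rw [h5, List.sum_toFinset _ (sort_nodup _ _)]
    unfold cyc
    rw [hs]
  rw [h4, h1, h2, h3]

theorem cyc_max {B : Finset ι} (hB : B.Nonempty) : cyc B (B.max' hB) = B.min' hB := by
  unfold cyc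
  rw [max'_eq_sorted_last, min'_eq_sorted_zero]
  have hne : B.sort (· ≤ ·) ≠ [] := by
    intro h
    obtain ⟨y, hy⟩ := hB
    rw [← mem_sort (· ≤ ·), h] at hy
    exact absurd hy (List.not_mem_nil)
  exact formPerm_last _ (List.length_pos_iff.2 hne)

end MP_d81877_alP
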