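import Mathlib
import Pool.Agent.Lib.MP_d81877_alI.Rai
import Pool.Agent.Lib.MP_d81877_alP.Defs

/-!
MP_d81877_al, part D, T-side: the two rules coming from the raising operators `1 → 2`, `0 → 3`,
`1 → 3`, `0 → 2` (insertion of `t` and of `M` into the trace functional of a permutation).
-/

set_option linter.unusedSimpArgs false

namespace MP_d81877_alP

open Finset Function MP_d81877_alI

variable {ι K : Type*} [DecidableEq ι] [Field K]

/-- insert `x` if the bit is on -/
def put (α : Bool) (x : ι) (I : Finset ι) : Finset ι := if α then insert x I else I

theorem put_true (x : ι) (I : Finset ι) : put true x I = insert x I := rfl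
theorem put_false (x : ι) (I : Finset ι) : put false x I = I := rfl

theorem mem_put (α : Bool) (x z : ι) (I : Finset ι) :
    z ∈ put α x I ↔ (α = true ∧ z = x) ∨ z ∈ I := by
  cases α <;> simp [put]

/-- the relation for the letter with left bit `α` and right bit `γ` -/
theorem rel [CharP K 2] [Fintype ι] {V F S I J : Finset ι} {v : WW ι K} (hv : Prm v)
    (hF : F ⊆ V) (hS : S ⊆ V) (hFS : Disjoint F S) (hI : I ⊆ S) (hJ : J ⊆ S) (α γ : Bool) :
    ∑ x ∈ V \ (F ∪ S), v (wd V F (insert x S) (put α x I) (put γ x J))
      + ∑ x ∈ S.filter (fun x => (x ∈ I ↔ α = false) ∧ (x ∈ J ↔ γ = false)),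
          v (wd V (insert x F) (S.erase x) (I.erase x) (J.erase x)) = 0 := by
  have hfs : ∀ z, z ∈ F → z ∈ S → False := fun z h1 h2 => (Finset.disjoint_left.1 hFS) h1 h2
  have key : rai (if α then 0 else 1) (if γ then 3 else 2) v = 0 := by
    apply rai_zero hv
    cases α <;> cases γ <;> decide
  have h1 := congrFun key (wd V F S I J)
  rw [Pi.zero_apply] at h1
  rw [← h1]
  unfold rai
  rw [← Finset.sum_filter]
  set w := wd V F S I J with hw
  set l : Fin 4 := if α then 0 else 1 with hl
  set m : Fin 4 := if γ then 3 else 2 with hm
  set g : ι → K := fun x => v (update (update w l ((w l).erase x)) m (insert x (w m))) with hg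
  have hset : univ.filter (fun x => x ∈ w l ∧ x ∉ w m) = (V \ (F ∪ S)) ∪
      S.filter (fun x => (x ∈ I ↔ α = false) ∧ (x ∈ J ↔ γ = false)) := by
    ext x
    have h2 : x ∈ I → x ∈ S := fun h => hI h
    have h3 : x ∈ J → x ∈ S := fun h => hJ h
    have h4 : x ∈ S → x ∈ V := fun h => hS h
    have h5 : x ∈ F → x ∈ V := fun h => hF h
    have h6 := hfs x
    simp only [hl, hm, hw]
    cases α <;> cases γ <;>
      simp [wd] <;> tauto
  have hdis : Disjoint (V \ (F ∪ S))
      (S.filter (fun x => (x ∈ I ↔ α = false) ∧ (x ∈ J ↔ γ = false))) := by
    rw [Finset.disjoint_left]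
    intro x hx hx'
    simp only [mem_sdiff, mem_union, mem_filter] at hx hx'
    tauto
  rw [hset, Finset.sum_union hdis]
  congr 1
  · apply Finset.sum_congr rfl
    intro x hx
    show _ = v (update (update w l ((w l).erase x)) m (insert x (w m)))
    congr 1
    simp only [mem_sdiff, mem_union, not_or] at hx
    obtain ⟨hxV, hxF, hxS⟩ := hx
    have hxI : x ∉ I := fun h => hxS (hI h)
    have hxJ : x ∉ J := fun h => hxS (hJ h)
    funext j
    cases α <;> cases γ <;> fin_cases j <;> simp [hl, hm, hw, wd, put, update]
    all_goals clear hw hl hm key h1 hg hset hdis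
    all_goals ext z
    all_goals have hzI : z ∈ I → z ∈ S := fun h => hI h
    all_goals have hzJ : z ∈ J → z ∈ S := fun h => hJ h
    all_goals have hzF := hfs z
    all_goals by_cases hz : z = x
    all_goals simp only [hz, mem_sdiff, mem_union, mem_insert, mem_erase, true_or, false_or,
      not_true_eq_false, and_false, and_true, true_and, false_and, or_true, or_false,
      not_false_eq_true, ne_eq] at *
    all_goals tauto
  · apply Finset.sum_congr rfl
    intro x hx
    show _ = v (update (update w l ((w l).erase x)) m (insert x (w m)))
    congr 1
    simp only [mem_filter] at hx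
    obtain ⟨hxS, hxI, hxJ⟩ := hx
    have hxV := hS hxS
    have hxF : x ∉ F := fun h => hfs x h hxS
    funext j
    cases α <;> cases γ <;> fin_cases j <;> simp [hl, hm, hw, wd, put, update]
    all_goals clear hw hl hm key h1 hg hset hdis
    all_goals ext z
    all_goals have hzI : z ∈ I → z ∈ S := fun h => hI h
    all_goals have hzJ : z ∈ J → z ∈ S := fun h => hJ h
    all_goals have hzF := hfs z
    all_goals by_cases hz : z = x
    all_goals simp only [hz, mem_sdiff, mem_union, mem_insert, mem_erase, true_or, false_or,
      not_true_eq_false, and_false, and_true, true_and, false_and, or_true, or_false,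
      not_false_eq_true, ne_eq] at *
    all_goals tauto

/-- the relation, summed over a family of pairs `(I, J)` and with the second sum over all of
`S` -/
theorem rel_sum [CharP K 2] [Fintype ι] {V F S : Finset ι} {v : WW ι K} (hv : Prm v)
    (hF : F ⊆ V) (hS : S ⊆ V) (hFS : Disjoint F S) (J : Bool → Finset ι → Finset ι)
    (hJ : ∀ α, ∀ I ∈ S.powerset, J α I ⊆ S) (γ : Bool → Finset ι → Bool) :
    ∑ x ∈ V \ (F ∪ S), ∑ I ∈ S.powerset, ∑ α : Bool,
        v (wd V F (insert x S) (put α x I) (put (γ α I) x (J α I)))
      + ∑ x ∈ S, ∑ I ∈ S.powerset, ∑ α : Bool,
          (if (x ∈ I ↔ α = false) ∧ (x ∈ J α I ↔ γ α I = false) then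
            v (wd V (insert x F) (S.erase x) (I.erase x) ((J α I).erase x)) else 0) = 0 := by
  rw [Finset.sum_comm (s := V \ (F ∪ S)), Finset.sum_comm (s := S), ← Finset.sum_add_distrib]
  apply Finset.sum_eq_zero
  intro I hI
  rw [Finset.sum_comm (s := V \ (F ∪ S)), Finset.sum_comm (s := S), ← Finset.sum_add_distrib]
  apply Finset.sum_eq_zero
  intro α _
  have h := rel hv hF hS hFS (Finset.mem_powerset.1 hI) (hJ α I hI) α (γ α I)
  rw [Finset.sum_filter] at h
  exact h

/-- splitting of a sum over the subsets of `S` according to `x ∈ S` -/
theorem sum_powerset_split {S : Finset ι} {x : ι} (hx : x ∈ S) (G : Finset ι → K) :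
    ∑ I ∈ S.powerset, G I = ∑ I ∈ (S.erase x).powerset, (G I + G (insert x I)) := by
  conv_lhs => rw [← Finset.insert_erase hx]
  rw [Finset.sum_powerset_insert (Finset.notMem_erase x S), ← Finset.sum_add_distrib]

/-- **E-rule** -/
theorem erule [CharP K 2] [Fintype ι] {V F S : Finset ι} {v : WW ι K} (hv : Prm v)
    (hF : F ⊆ V) (hS : S ⊆ V) (hFS : Disjoint F S) (s : Equiv.Perm ι)
    (hs : ∀ x, x ∉ S → s x = x) :
    ∑ x ∈ V \ (F ∪ S), hh V F (insert x S) s v
      + ∑ x ∈ S.filter (fun x => s x ≠ x),
          hh V (insert x F) (S.erase x) (Equiv.swap x (s x) * s) v = 0 := by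
  rw [← rel_sum hv hF hS hFS (fun _ I => S.filter (fun z => s z ∈ I))
    (fun α I _ => Finset.filter_subset _ _) (fun α _ => α)]
  congr 1
  · apply Finset.sum_congr rfl
    intro x hx
    simp only [mem_sdiff, mem_union, not_or] at hx
    obtain ⟨hxV, hxF, hxS⟩ := hx
    have hsx := hs x hxS
    unfold hh
    rw [Finset.sum_powerset_insert hxS, ← Finset.sum_add_distrib]
    apply Finset.sum_congr rfl
    intro I hI
    rw [Finset.mem_powerset] at hI
    have hxI : x ∉ I := fun h => hxS (hI h)
    rw [Fintype.sum_bool, add_comm]
    congr 2
    · congr 1
      simp only [put_true]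
      ext z
      simp only [mem_filter, mem_insert]
      by_cases hz : z = x
      · subst hz; simp [hsx]
      · have : s z ≠ x := fun h => hz (s.injective (h.trans hsx.symm))
        simp [hz, this]
    · congr 1
      simp only [put_false]
      ext z
      simp only [mem_filter, mem_insert]
      by_cases hz : z = x
      · subst hz; simp [hsx, hxI, hxS]
      · simp [hz]
  · rw [Finset.sum_filter]
    apply Finset.sum_congr rfl
    intro x hx
    rw [sum_powerset_split hx]
    unfold hh
    by_cases hsx : s x = x
    · rw [if_neg (by simpa using hsx)]
      symm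
      apply Finset.sum_eq_zero
      intro I hI
      have hxI : x ∉ I := fun h => Finset.notMem_erase x S (Finset.mem_powerset.1 hI h)
      have e1 : (insert x I).erase x = I := Finset.erase_insert hxI
      have e2 : I.erase x = I := Finset.erase_eq_of_notMem hxI
      have e3 : (S.filter (fun z => s z ∈ insert x I)).erase x
          = (S.filter (fun z => s z ∈ I)).erase x := by
        ext z
        by_cases hz : z = x
        · simp [hz]
        · have : s z ≠ x := fun h => hz (s.injective (h.trans hsx.symm))
          simp [hz, this]
      simp only [Fintype.sum_bool, e1, e2, e3]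
      simp [hsx, hxI, hx, CharTwo.add_self_eq_zero]
    · rw [if_pos hsx]
      apply Finset.sum_congr rfl
      intro I hI
      have hxI : x ∉ I := fun h => Finset.notMem_erase x S (Finset.mem_powerset.1 hI h)
      have e1 : (insert x I).erase x = I := Finset.erase_insert hxI
      have e2 : I.erase x = I := Finset.erase_eq_of_notMem hxI
      by_cases h : s x ∈ I
      · have e3 : (S.erase x).filter (fun z => (Equiv.swap x (s x) * s) z ∈ I)
            = (S.filter (fun z => s z ∈ insert x I)).erase x := by
          ext z
          by_cases hz : z = x
          · simp [hz]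
          · have h1 : s z ≠ s x := fun h => hz (s.injective h)
            by_cases h2 : s z = x
            · simp [hz, h2, h]
            · simp [hz, h2, Equiv.swap_apply_of_ne_of_ne h2 h1]
        rw [e3]
        simp only [Fintype.sum_bool, e1, e2]
        simp [h, hxI, hx]
      · have e3 : (S.erase x).filter (fun z => (Equiv.swap x (s x) * s) z ∈ I)
            = (S.filter (fun z => s z ∈ I)).erase x := by
          ext z
          by_cases hz : z = x
          · simp [hz]
          · have h1 : s z ≠ s x := fun h => hz (s.injective h)
            by_cases h2 : s z = x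
            · simp [hz, h2, h, hxI]
            · simp [hz, h2, Equiv.swap_apply_of_ne_of_ne h2 h1]
        rw [e3]
        simp only [Fintype.sum_bool, e1, e2]
        simp [h, hxI, hx, hsx]

/-- the pointwise identity behind the M-rule -/
theorem mpoint [CharP K 2] {S : Finset ι} (s : Equiv.Perm ι) (hs : ∀ x, x ∉ S → s x = x)
    {p x : ι} (hp : p ∈ S) (hx : x ∈ S) {I : Finset ι} (hI : I ⊆ S.erase x)
    (φ : Finset ι → K) :
    (∑ α : Bool, (if (x ∈ I ↔ α = false) ∧ (x ∈ put α p ((S.erase p).filter (fun z => s z ∈ I)) ↔
            decide (s p ∈ I) = false) then
            φ ((put α p ((S.erase p).filter (fun z => s z ∈ I))).erase x) else 0))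
      + (∑ α : Bool, (if (x ∈ insert x I ↔ α = false) ∧
            (x ∈ put α p ((S.erase p).filter (fun z => s z ∈ insert x I)) ↔
            decide (s p ∈ insert x I) = false) then
            φ ((put α p ((S.erase p).filter (fun z => s z ∈ insert x I))).erase x) else 0))
      = (if x = p ∧ s p = p then 0 else
          φ ((S.erase x).filter (fun z => (Equiv.swap x (s x) * s) z ∈ I)))
        + (if x ≠ p ∧ s p ≠ x ∧ s x ≠ x then
          φ ((S.erase x).filter
            (fun z => (Equiv.swap x (s x) * s * Equiv.swap p (s.symm x)) z ∈ I)) else 0) := by
  have hxI : x ∉ I := fun h => Finset.notMem_erase x S (hI h)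
  by_cases hxp : x = p
  · subst hxp
    by_cases hsx : s x = x
    · have e3 : ((S.erase x).filter (fun z => s z ∈ insert x I))
          = ((S.erase x).filter (fun z => s z ∈ I)) := by
        ext z
        by_cases hz : z = x
        · simp [hz]
        · have : s z ≠ x := fun h => hz (s.injective (h.trans hsx.symm))
          simp [hz, this]
      simp only [Fintype.sum_bool, e3]
      simp [put, hsx, hxI, CharTwo.add_self_eq_zero]
    · by_cases h : s x ∈ I
      · have e3 : (S.erase x).filter (fun z => (Equiv.swap x (s x) * s) z ∈ I)
            = ((S.erase x).filter (fun z => s z ∈ insert x I)) := by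
          ext z
          by_cases hz : z = x
          · simp [hz]
          · have h1 : s z ≠ s x := fun h => hz (s.injective h)
            by_cases h2 : s z = x
            · simp [hz, h2, h]
            · simp [hz, h2, Equiv.swap_apply_of_ne_of_ne h2 h1]
        rw [e3]
        simp only [Fintype.sum_bool]
        simp [put, h, hxI, hsx]
      · have e3 : (S.erase x).filter (fun z => (Equiv.swap x (s x) * s) z ∈ I)
            = ((S.erase x).filter (fun z => s z ∈ I)) := by
          ext z
          by_cases hz : z = x
          · simp [hz]
          · have h1 : s z ≠ s x := fun h => hz (s.injective h)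
            by_cases h2 : s z = x
            · simp [hz, h2, h, hxI]
            · simp [hz, h2, Equiv.swap_apply_of_ne_of_ne h2 h1]
        rw [e3]
        simp only [Fintype.sum_bool]
        simp [put, h, hxI, hsx]
  · by_cases hsx : s x = x
    · have hpx : s p ≠ x := fun h => hxp (s.injective (hsx.trans h.symm))
      have e0 : ∀ z, z ≠ x → s z ≠ x := fun z hz h => hz (s.injective (h.trans hsx.symm))
      by_cases h : s p ∈ I
      · have e3 : (S.erase x).filter (fun z => (Equiv.swap x (s x) * s) z ∈ I)
            = (put true p ((S.erase p).filter (fun z => s z ∈ I))).erase x := by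
          ext z
          by_cases hz : z = x
          · simp [hz]
          · by_cases hz' : z = p
            · subst hz'; simp [put, hsx, h, hp, hz]
            · simp [put, hsx, hz, hz']
        rw [e3]
        simp only [Fintype.sum_bool]
        simp [put, h, hxI, hsx, hxp, hpx, hx]
      · have e3 : (S.erase x).filter (fun z => (Equiv.swap x (s x) * s) z ∈ I)
            = (put false p ((S.erase p).filter (fun z => s z ∈ insert x I))).erase x := by
          ext z
          by_cases hz : z = x
          · simp [hz]
          · by_cases hz' : z = p
            · subst hz'; simp [put, hsx, h, hz]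
            · simp [put, hsx, hz, hz', e0 z hz]
        rw [e3]
        simp only [Fintype.sum_bool]
        simp [put, h, hxI, hsx, hxp, hpx, hx]
    · by_cases hpx : s p = x
      · have e0 : ∀ z, z ≠ p → s z ≠ x := fun z hz h => hz (s.injective (h.trans hpx.symm))
        by_cases h : s x ∈ I
        · have e3 : (S.erase x).filter (fun z => (Equiv.swap x (s x) * s) z ∈ I)
              = (put true p ((S.erase p).filter (fun z => s z ∈ I))).erase x := by
            ext z
            by_cases hz : z = x
            · simp [hz]
            · by_cases hz' : z = p
              · subst hz'; simp [put, hpx, h, hp, hz]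
              · have h1 : s z ≠ s x := fun h => hz (s.injective h)
                simp [put, hz, hz', Equiv.swap_apply_of_ne_of_ne (e0 z hz') h1]
          rw [e3]
          simp only [Fintype.sum_bool]
          simp [put, h, hxI, hsx, hxp, hpx, hx]
        · have e3 : (S.erase x).filter (fun z => (Equiv.swap x (s x) * s) z ∈ I)
              = (put false p ((S.erase p).filter (fun z => s z ∈ insert x I))).erase x := by
            ext z
            by_cases hz : z = x
            · simp [hz]
            · by_cases hz' : z = p
              · subst hz'; simp [put, hpx, h, hp, hz]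
              · have h1 : s z ≠ s x := fun h => hz (s.injective h)
                simp [put, hz, hz', e0 z hz', Equiv.swap_apply_of_ne_of_ne (e0 z hz') h1]
          rw [e3]
          simp only [Fintype.sum_bool]
          simp [put, h, hxI, hsx, hxp, hpx, hx]
      · -- generic case
        set q := s.symm x with hq
        have hsq : s q = x := by rw [hq, Equiv.apply_symm_apply]
        have hqx : q ≠ x := fun h => hsx (by rw [← h]; rw [hsq, h])
        have hqp : q ≠ p := fun h => hpx (by rw [← h, hsq])
        have hspx : s p ≠ s x := fun h => hxp (s.injective h).symm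
        have hqS : q ∈ S := by
          by_contra h
          exact hqx (by rw [← hs q h, hsq])
        have e0 : ∀ z, z ≠ q → s z ≠ x := fun z hz h => hz (s.injective (h.trans hsq.symm))
        have m1 : ∀ z, z ≠ x → (Equiv.swap x (s x) * s) z = if z = q then s x else s z := by
          intro z hz
          by_cases hzq : z = q
          · simp [hzq, hsq]
          · have h1 : s z ≠ s x := fun h => hz (s.injective h)
            simp [hzq, Equiv.swap_apply_of_ne_of_ne (e0 z hzq) h1]
        have m2 : ∀ z, z ≠ x → (Equiv.swap x (s x) * s * Equiv.swap p q) z
            = if z = p then s x else if z = q then s p else s z := by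
          intro z hz
          rw [Equiv.Perm.mul_apply]
          by_cases hzp : z = p
          · rw [hzp, Equiv.swap_apply_left, m1 q hqx]
            simp
          · by_cases hzq : z = q
            · rw [hzq, Equiv.swap_apply_right, m1 p (Ne.symm hxp)]
              simp [hqp, Ne.symm hqp]
            · rw [Equiv.swap_apply_of_ne_of_ne hzp hzq, m1 z hz]
              simp [hzp, hzq]
        have t1 : (put true p ((S.erase p).filter (fun z => s z ∈ I))).erase x
            = (S.erase x).filter (fun z => z = p ∨ s z ∈ I) := by
          ext z
          by_cases hzp : z = p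
          · simp [put, hzp, hp]
          · simp [put, hzp]
            tauto
        have t2 : (put false p ((S.erase p).filter (fun z => s z ∈ insert x I))).erase x
            = (S.erase x).filter (fun z => z ≠ p ∧ (z = q ∨ s z ∈ I)) := by
          ext z
          by_cases hzq : z = q
          · simp [put, hzq, hsq]
            tauto
          · simp [put, hzq, e0 z hzq]
            tauto
        have c1 : ∀ {P Q : ι → Prop} [DecidablePred P] [DecidablePred Q],
            (∀ z, z ≠ x → (P z ↔ Q z)) → (S.erase x).filter P = (S.erase x).filter Q := by
          intro P Q _ _ h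
          apply Finset.filter_congr
          intro z hz
          exact h z (Finset.ne_of_mem_erase hz)
        have r1 : (S.erase x).filter (fun z => (Equiv.swap x (s x) * s) z ∈ I)
            = (S.erase x).filter (fun z => (if z = q then s x else s z) ∈ I) :=
          c1 (fun z hz => by rw [m1 z hz])
        have r2 : (S.erase x).filter
              (fun z => (Equiv.swap x (s x) * s * Equiv.swap p q) z ∈ I)
            = (S.erase x).filter
              (fun z => (if z = p then s x else if z = q then s p else s z) ∈ I) :=
          c1 (fun z hz => by rw [m2 z hz])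
        rw [r1, r2, if_neg (fun h => hxp h.1), if_pos ⟨hxp, hpx, hsx⟩]
        simp only [Fintype.sum_bool]
        rw [t1, t2]
        have hxx : x ∈ put true p ((S.erase p).filter (fun z => s z ∈ I)) ↔ s x ∈ I := by
          simp [put, hxp, hx]
        have hxx' : x ∈ put false p ((S.erase p).filter (fun z => s z ∈ insert x I)) ↔ s x ∈ I := by
          simp [put, hxp, hx, hsx]
        have hxI' : x ∈ insert x I ↔ True := by simp
        have hpI : s p ∈ insert x I ↔ s p ∈ I := by simp [hpx]
        simp only [hxx, hxx', hxI', hxI, hpI]
        by_cases h1 : s x ∈ I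
        · by_cases h2 : s p ∈ I
          · have hJ : (S.erase x).filter (fun z => (if z = q then s x else s z) ∈ I)
                = (S.erase x).filter
                  (fun z => (if z = p then s x else if z = q then s p else s z) ∈ I) := by
              apply c1
              intro z hz
              by_cases hzp : z = p
              · simp [hzp, Ne.symm hqp, h1, h2]
              · by_cases hzq : z = q
                · simp [hzq, hqp, h1, h2]
                · simp [hzp, hzq]
            rw [hJ, CharTwo.add_self_eq_zero]
            simp [h1, h2, add_comm]
          · have hJ : (S.erase x).filter (fun z => (if z = q then s x else s z) ∈ I)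
                = (S.erase x).filter (fun z => z ≠ p ∧ (z = q ∨ s z ∈ I)) := by
              apply c1
              intro z hz
              by_cases hzp : z = p
              · simp [hzp, Ne.symm hqp, h1, h2]
              · by_cases hzq : z = q
                · simp [hzq, hqp, h1, h2]
                · simp [hzp, hzq]
            have hJ' : (S.erase x).filter
                  (fun z => (if z = p then s x else if z = q then s p else s z) ∈ I)
                = (S.erase x).filter (fun z => z = p ∨ s z ∈ I) := by
              apply c1
              intro z hz
              by_cases hzp : z = p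
              · simp [hzp, Ne.symm hqp, h1, h2]
              · by_cases hzq : z = q
                · simp [hzq, hqp, h1, h2, hsq, hxI]
                · simp [hzp, hzq]
            rw [hJ, hJ']
            simp [h1, h2, add_comm]
        · by_cases h2 : s p ∈ I
          · have hJ' : (S.erase x).filter (fun z => (if z = q then s x else s z) ∈ I)
                = (S.erase x).filter (fun z => z = p ∨ s z ∈ I) := by
              apply c1
              intro z hz
              by_cases hzp : z = p
              · simp [hzp, Ne.symm hqp, h1, h2]
              · by_cases hzq : z = q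
                · simp [hzq, hqp, h1, h2, hsq, hxI]
                · simp [hzp, hzq]
            have hJ : (S.erase x).filter
                  (fun z => (if z = p then s x else if z = q then s p else s z) ∈ I)
                = (S.erase x).filter (fun z => z ≠ p ∧ (z = q ∨ s z ∈ I)) := by
              apply c1
              intro z hz
              by_cases hzp : z = p
              · simp [hzp, Ne.symm hqp, h1, h2]
              · by_cases hzq : z = q
                · simp [hzq, hqp, h1, h2, hsq, hxI]
                · simp [hzp, hzq]
            rw [hJ, hJ']
            simp [h1, h2, add_comm]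
          · have hJ : (S.erase x).filter (fun z => (if z = q then s x else s z) ∈ I)
                = (S.erase x).filter
                  (fun z => (if z = p then s x else if z = q then s p else s z) ∈ I) := by
              apply c1
              intro z hz
              by_cases hzp : z = p
              · simp [hzp, Ne.symm hqp, h1, h2]
              · by_cases hzq : z = q
                · simp [hzq, hqp, h1, h2]
                · simp [hzp, hzq]
            rw [hJ, CharTwo.add_self_eq_zero]
            simp [h1, h2, add_comm]

/-- **M-rule** -/
theorem mrule [CharP K 2] [Fintype ι] {V F S : Finset ι} {v : WW ι K} (hv : Prm v)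
    (hF : F ⊆ V) (hS : S ⊆ V) (hFS : Disjoint F S) (s : Equiv.Perm ι)
    (hs : ∀ x, x ∉ S → s x = x) {p : ι} (hp : p ∈ S) :
    ∑ x ∈ V \ (F ∪ S), hh V F (insert x S) (s * Equiv.swap p x) v
      + ∑ x ∈ S, ((if x = p ∧ s p = p then 0 else
          hh V (insert x F) (S.erase x) (Equiv.swap x (s x) * s) v)
        + (if x ≠ p ∧ s p ≠ x ∧ s x ≠ x then
          hh V (insert x F) (S.erase x)
            (Equiv.swap x (s x) * s * Equiv.swap p (s.symm x)) v else 0)) = 0 := by
  refine Eq.trans ?_ (rel_sum hv hF hS hFS
    (fun α I => put α p ((S.erase p).filter (fun z => s z ∈ I)))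
    (fun α I _ => by
      intro z hz
      rw [mem_put] at hz
      rcases hz with ⟨_, rfl⟩ | hz
      · exact hp
      · exact Finset.mem_of_mem_erase (Finset.mem_of_mem_filter _ hz))
    (fun _ I => decide (s p ∈ I)))
  congr 1
  · apply Finset.sum_congr rfl
    intro x hx
    simp only [mem_sdiff, mem_union, not_or] at hx
    obtain ⟨hxV, hxF, hxS⟩ := hx
    have hsx := hs x hxS
    have hxp : x ≠ p := fun h => hxS (h ▸ hp)
    have hpx : s p ≠ x := fun h => hxp (s.injective (hsx.trans h.symm))
    unfold hh
    rw [Finset.sum_powerset_insert hxS, ← Finset.sum_add_distrib]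
    apply Finset.sum_congr rfl
    intro I hI
    rw [Finset.mem_powerset] at hI
    have hxI : x ∉ I := fun h => hxS (hI h)
    rw [Fintype.sum_bool, add_comm]
    have e0 : ∀ z, z ≠ x → s z ≠ x := fun z hz h => hz (s.injective (h.trans hsx.symm))
    congr 2
    · congr 1
      ext z
      rw [mem_put, mem_put]
      simp only [mem_filter, mem_insert, Equiv.Perm.mul_apply, mem_erase, decide_eq_true_eq,
        true_and]
      by_cases hz : z = x
      · subst hz; simp [hpx, hxp, hxS]
      · by_cases hz' : z = p
        · subst hz'; simp [hsx, hp]
        · simp [hz, hz', Equiv.swap_apply_of_ne_of_ne hz' hz, e0 z hz]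
    · congr 1
      ext z
      rw [mem_put, mem_put]
      simp only [mem_filter, mem_insert, Equiv.Perm.mul_apply, mem_erase, decide_eq_true_eq]
      by_cases hz : z = x
      · subst hz; simp [hxp, hxS]
      · by_cases hz' : z = p
        · subst hz'; simp [hsx, hxI, hz]
        · simp [hz, hz', Equiv.swap_apply_of_ne_of_ne hz' hz]
  · apply Finset.sum_congr rfl
    intro x hx
    rw [sum_powerset_split hx]
    unfold hh
    symm
    have key : ∀ I ∈ (S.erase x).powerset, _ =
        (if x = p ∧ s p = p then 0 else
          v (wd V (insert x F) (S.erase x) I
            ((S.erase x).filter (fun z => (Equiv.swap x (s x) * s) z ∈ I))))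
        + (if x ≠ p ∧ s p ≠ x ∧ s x ≠ x then
          v (wd V (insert x F) (S.erase x) I ((S.erase x).filter
            (fun z => (Equiv.swap x (s x) * s * Equiv.swap p (s.symm x)) z ∈ I))) else 0) :=
      fun I hI => mpoint s hs hp hx (Finset.mem_powerset.1 hI)
        (fun J => v (wd V (insert x F) (S.erase x) I J))
    refine Eq.trans (Finset.sum_congr rfl (fun I hI => Eq.trans ?_ (key I hI))) ?_
    · have hxI : x ∉ I := fun h => Finset.notMem_erase x S (Finset.mem_powerset.1 hI h)
      rw [Finset.erase_eq_of_notMem hxI, Finset.erase_insert hxI]
    · rw [Finset.sum_add_distrib]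
      congr 1
      · by_cases h : x = p ∧ s p = p
        · simp [h]
        · simp only [if_neg h]
      · by_cases h : x ≠ p ∧ s p ≠ x ∧ s x ≠ x
        · simp only [if_pos h]
        · simp only [if_neg h, Finset.sum_const_zero]

end MP_d81877_alP
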