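import Mathlib
import Pool.Agent.Lib.MP_d81877_alP.Rules
import Pool.Agent.Lib.MP_d81877_alP.Cyc
import Pool.Agent.Lib.MP_d81877_alZF.Orth

/-!
MP_d81877_al, part D, T-side: `e (p v) = 0`.
-/

namespace MP_d81877_alP

open Finset Function MP_d81877_alI

variable {ι K : Type*} [LinearOrder ι] [Field K]

theorem pm_of_not {V A B : Finset ι} (v : WW ι K) (h : B \ A = ∅ ∨ ¬ (A ∪ B ⊆ V)) :
    pm V v A B = 0 := if_pos h

theorem pm_of {V A B : Finset ι} (v : WW ι K) (h : B \ A ≠ ∅) (h' : A ∪ B ⊆ V) :
    pm V v A B = hh V (A ∩ B) ((A \ B) ∪ (B \ A)) (cyc (B \ A)) v := by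
  unfold pm
  rw [if_neg]
  rintro (h1 | h1)
  · exact h h1
  · exact h1 h'

/-- **`e (p v) = 0`** -/
theorem e_pm [CharP K 2] [Fintype ι] {V : Finset ι} {v : WW ι K} (hv : Prm v) :
    D81877ZF.e V (pm V v) = 0 := by
  funext A B
  unfold D81877ZF.e
  rw [LinearMap.sum_apply, Finset.sum_apply, Finset.sum_apply]
  simp only [D81877ZF.d_apply]
  rw [Pi.zero_apply, Pi.zero_apply]
  by_cases hAB : A ∪ B ⊆ V
  swap
  · apply Finset.sum_eq_zero
    intro x _
    split_ifs with h
    · rfl
    · apply pm_of_not
      right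
      intro h'
      exact hAB ((Finset.union_subset_union_left (Finset.subset_insert x A)).trans h')
  by_cases hBA : B \ A = ∅
  · apply Finset.sum_eq_zero
    intro x _
    split_ifs with h
    · rfl
    · apply pm_of_not
      left
      rw [← Finset.subset_empty, ← hBA]
      exact Finset.sdiff_subset_sdiff (Finset.Subset.refl _) (Finset.subset_insert x A)
  have hA : A ⊆ V := Finset.subset_union_left.trans hAB
  have hB : B ⊆ V := Finset.subset_union_right.trans hAB
  have hF : A ∩ B ⊆ V := Finset.inter_subset_left.trans hA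
  have hS : (A \ B) ∪ (B \ A) ⊆ V :=
    Finset.union_subset (Finset.sdiff_subset.trans hA) (Finset.sdiff_subset.trans hB)
  have hFS : Disjoint (A ∩ B) ((A \ B) ∪ (B \ A)) := by
    rw [Finset.disjoint_left]
    intro x hx hx'
    simp only [mem_inter, mem_union, mem_sdiff] at hx hx'
    tauto
  have hs : ∀ x, x ∉ (A \ B) ∪ (B \ A) → cyc (B \ A) x = x := fun x hx =>
    cyc_fix (fun h => hx (Finset.mem_union_right _ h))
  have key := erule hv hF hS hFS (cyc (B \ A)) hs
  rw [Finset.sum_ite, Finset.sum_const_zero, zero_add]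
  refine Eq.trans ?_ key
  have hsplit : V.filter (fun x => ¬ x ∈ A) = (V \ ((A ∩ B) ∪ ((A \ B) ∪ (B \ A)))) ∪ (B \ A) := by
    ext x
    have := @hB x
    simp only [mem_filter, mem_union, mem_sdiff, mem_inter]
    tauto
  have hdisj : Disjoint (V \ ((A ∩ B) ∪ ((A \ B) ∪ (B \ A)))) (B \ A) := by
    rw [Finset.disjoint_left]
    intro x hx hx'
    simp only [mem_inter, mem_union, mem_sdiff] at hx hx'
    tauto
  rw [hsplit, Finset.sum_union hdisj]
  congr 1
  · apply Finset.sum_congr rfl
    intro x hx
    simp only [mem_inter, mem_union, mem_sdiff] at hx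
    have hxA : x ∉ A := by tauto
    have hxB : x ∉ B := by tauto
    have e1 : B \ insert x A = B \ A := by
      ext z
      simp only [mem_sdiff, mem_insert]
      constructor
      · tauto
      · rintro ⟨h1, h2⟩
        refine ⟨h1, ?_⟩
        rintro (h3 | h3)
        · exact hxB (h3 ▸ h1)
        · exact h2 h3
    have e2 : insert x A ∩ B = A ∩ B := Finset.insert_inter_of_notMem hxB
    have e3 : insert x A \ B = insert x (A \ B) := Finset.insert_sdiff_of_notMem _ hxB
    rw [pm_of v (by rw [e1]; exact hBA) (by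
      rw [Finset.insert_union]
      exact Finset.insert_subset hx.1 hAB), e1, e2, e3, Finset.insert_union]
  · rw [Finset.sum_filter]
    rw [Finset.sum_union (by
      rw [Finset.disjoint_left]
      intro x hx hx'
      simp only [mem_sdiff] at hx hx'
      tauto)]
    have h0 : ∑ x ∈ A \ B, (if cyc (B \ A) x ≠ x then
        hh V (insert x (A ∩ B)) (((A \ B) ∪ (B \ A)).erase x)
          (Equiv.swap x (cyc (B \ A) x) * cyc (B \ A)) v else 0) = 0 := by
      apply Finset.sum_eq_zero
      intro x hx
      rw [if_neg]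
      intro h
      apply h
      apply cyc_fix
      simp only [mem_sdiff] at hx ⊢
      tauto
    rw [h0, zero_add]
    apply Finset.sum_congr rfl
    intro x hx
    have hx' := hx
    rw [mem_sdiff] at hx'
    have e1 : B \ insert x A = (B \ A).erase x := by
      rw [Finset.sdiff_insert]
    by_cases hne : ((B \ A).erase x).Nonempty
    · rw [if_pos (cyc_ne hx hne), pm_of v (by rw [e1]; exact hne.ne_empty) (by
        rw [Finset.insert_union]
        exact Finset.insert_subset (hB hx'.1) hAB), e1, cyc_erase hx hne]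
      have e2 : insert x A ∩ B = insert x (A ∩ B) := Finset.insert_inter_of_mem hx'.1
      have e3 : insert x A \ B ∪ (B \ A).erase x = ((A \ B) ∪ (B \ A)).erase x := by
        ext z
        simp only [mem_sdiff, mem_insert, mem_union, mem_erase]
        by_cases hz : z = x
        · subst hz; tauto
        · tauto
      rw [e2, e3]
    · have h1 : (B \ A).erase x = ∅ := Finset.not_nonempty_iff_eq_empty.1 hne
      rw [pm_of_not v (Or.inl (by rw [e1]; exact h1)), if_neg]
      intro h
      apply h
      have h2 : B \ A = {x} := by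
        rw [← Finset.insert_erase hx, h1]
        rfl
      rw [h2, cyc_singleton]
      rfl

end MP_d81877_alP
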