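import Mathlib
import Pool.Agent.Lib.MP_d81877_alP.Defs
import Pool.Agent.Lib.MP_d81877_alI.Rai

/-!
MP_d81877_al, part D, T1: the E-rule for the trace functionals `hh`.
-/

namespace MP_d81877_alP

open Finset Function MP_d81877_alI

variable {ι K : Type*} [DecidableEq ι] [Fintype ι] [Field K]

/-- a sum over all sites which is supported on `V \ (F ∪ S)` and `S` -/
theorem sum_split_site (V F S : Finset ι) (g : ι → K)
    (h : ∀ x, x ∉ V \ (F ∪ S) → x ∉ S → g x = 0) :
    ∑ x : ι, g x = ∑ x ∈ V \ (F ∪ S), g x + ∑ x ∈ S, g x := by
  have hd : Disjoint (V \ (F ∪ S)) S := by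
    rw [Finset.disjoint_left]
    intro x hx hx'
    exact (Finset.mem_sdiff.1 hx).2 (Finset.mem_union_right _ hx')
  rw [← Finset.sum_union hd]
  symm
  apply Finset.sum_subset (Finset.subset_univ _)
  intro x _ hx
  rw [Finset.mem_union, not_or] at hx
  exact h x hx.1 hx.2

theorem rai12_wd {V F S I J : Finset ι} (hI : I ⊆ S) (hJ : J ⊆ S) (hS : S ⊆ V)
    (hFS : Disjoint F S) (v : WW ι K) :
    rai 1 2 v (wd V F S I J)
      = ∑ x ∈ V \ (F ∪ S), v (wd V F (insert x S) I J)
        + ∑ x ∈ S, if x ∈ I ∧ x ∈ J then
            v (wd V (insert x F) (S.erase x) (I.erase x) (J.erase x)) else 0 := by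
  unfold rai
  have w1 : wd V F S I J 1 = V \ (F ∪ (S \ I)) := rfl
  have w2 : wd V F S I J 2 = F ∪ (S \ J) := rfl
  rw [sum_split_site V F S]
  · congr 1
    · apply Finset.sum_congr rfl
      intro x hx
      rw [Finset.mem_sdiff, Finset.mem_union, not_or] at hx
      obtain ⟨hxV, hxF, hxS⟩ := hx
      have hxI : x ∉ I := fun h => hxS (hI h)
      have hxJ : x ∉ J := fun h => hxS (hJ h)
      rw [if_pos]
      · congr 1
        rw [w1, w2]
        funext l
        fin_cases l
        · rfl
        · change (V \ (F ∪ (S \ I))).erase x = V \ (F ∪ (insert x S \ I))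
          ext y
          simp only [Finset.mem_erase, Finset.mem_sdiff, Finset.mem_union, Finset.mem_insert]
          by_cases hy : y = x
          · subst hy; simp [hxI]
          · simp [hy]
        · change insert x (F ∪ (S \ J)) = F ∪ (insert x S \ J)
          ext y
          simp only [Finset.mem_sdiff, Finset.mem_union, Finset.mem_insert]
          by_cases hy : y = x
          · subst hy; simp [hxJ]
          · simp [hy]
        · rfl
      · rw [w1, w2]
        simp [hxV, hxF, hxS]
    · apply Finset.sum_congr rfl
      intro x hxS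
      have hxF : x ∉ F := fun h => Finset.disjoint_left.1 hFS h hxS
      by_cases hc : x ∈ I ∧ x ∈ J
      · rw [if_pos hc, if_pos]
        · congr 1
          rw [w1, w2]
          funext l
          fin_cases l
          · change V \ (F ∪ I) = V \ (insert x F ∪ I.erase x)
            ext y
            simp only [Finset.mem_sdiff, Finset.mem_union, Finset.mem_insert, Finset.mem_erase]
            by_cases hy : y = x
            · subst hy; simp [hc.1]
            · simp [hy]
          · change (V \ (F ∪ (S \ I))).erase x = V \ (insert x F ∪ (S.erase x \ I.erase x))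
            ext y
            simp only [Finset.mem_sdiff, Finset.mem_union, Finset.mem_insert, Finset.mem_erase]
            by_cases hy : y = x
            · subst hy; simp
            · simp [hy]
          · change insert x (F ∪ (S \ J)) = insert x F ∪ (S.erase x \ J.erase x)
            ext y
            simp only [Finset.mem_sdiff, Finset.mem_union, Finset.mem_insert, Finset.mem_erase]
            by_cases hy : y = x
            · subst hy; simp
            · simp [hy]
          · change F ∪ J = insert x F ∪ J.erase x
            ext y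
            simp only [Finset.mem_union, Finset.mem_insert, Finset.mem_erase]
            by_cases hy : y = x
            · subst hy; simp [hc.2]
            · simp [hy]
        · rw [w1, w2]
          simp [hS hxS, hxF, hxS, hc.1, hc.2]
      · rw [if_neg hc, if_neg]
        rw [w1, w2]
        rintro ⟨h1, h2⟩
        rw [Finset.mem_sdiff, Finset.mem_union, not_or] at h1
        rw [Finset.mem_union, not_or] at h2
        apply hc
        constructor
        · by_contra h
          exact h1.2.2 (Finset.mem_sdiff.2 ⟨hxS, h⟩)
        · by_contra h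
          exact h2.2 (Finset.mem_sdiff.2 ⟨hxS, h⟩)
  · intro x hx hxS
    rw [if_neg]
    rw [w1, w2]
    rintro ⟨h1, h2⟩
    rw [Finset.mem_sdiff, Finset.mem_union, not_or] at h1
    apply hx
    rw [Finset.mem_sdiff, Finset.mem_union, not_or]
    exact ⟨h1.1, h1.2.1, hxS⟩

theorem rai03_wd {V F S I J : Finset ι} (hI : I ⊆ S) (hJ : J ⊆ S) (hS : S ⊆ V)
    (hFS : Disjoint F S) (v : WW ι K) :
    rai 0 3 v (wd V F S I J)
      = ∑ x ∈ V \ (F ∪ S), v (wd V F (insert x S) (insert x I) (insert x J))
        + ∑ x ∈ S, if x ∉ I ∧ x ∉ J then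
            v (wd V (insert x F) (S.erase x) (I.erase x) (J.erase x)) else 0 := by
  unfold rai
  have w1 : wd V F S I J 0 = V \ (F ∪ I) := rfl
  have w2 : wd V F S I J 3 = F ∪ J := rfl
  rw [sum_split_site V F S]
  · congr 1
    · apply Finset.sum_congr rfl
      intro x hx
      rw [Finset.mem_sdiff, Finset.mem_union, not_or] at hx
      obtain ⟨hxV, hxF, hxS⟩ := hx
      have hxI : x ∉ I := fun h => hxS (hI h)
      have hxJ : x ∉ J := fun h => hxS (hJ h)
      rw [if_pos]
      · congr 1
        rw [w1, w2]
        funext l
        fin_cases l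
        · change (V \ (F ∪ I)).erase x = V \ (F ∪ insert x I)
          ext y
          simp only [Finset.mem_erase, Finset.mem_sdiff, Finset.mem_union, Finset.mem_insert]
          by_cases hy : y = x
          · subst hy; simp
          · simp [hy]
        · change V \ (F ∪ (S \ I)) = V \ (F ∪ (insert x S \ insert x I))
          ext y
          simp only [Finset.mem_sdiff, Finset.mem_union, Finset.mem_insert]
          by_cases hy : y = x
          · subst hy; simp [hxS]
          · simp [hy]
        · change F ∪ (S \ J) = F ∪ (insert x S \ insert x J)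
          ext y
          simp only [Finset.mem_sdiff, Finset.mem_union, Finset.mem_insert]
          by_cases hy : y = x
          · subst hy; simp [hxS]
          · simp [hy]
        · change insert x (F ∪ J) = F ∪ insert x J
          rw [Finset.union_insert]
      · rw [w1, w2]
        simp [hxV, hxF, hxI, hxJ]
    · apply Finset.sum_congr rfl
      intro x hxS
      have hxF : x ∉ F := fun h => Finset.disjoint_left.1 hFS h hxS
      by_cases hc : x ∉ I ∧ x ∉ J
      · rw [if_pos hc, if_pos]
        · congr 1
          rw [w1, w2, Finset.erase_eq_of_notMem hc.1, Finset.erase_eq_of_notMem hc.2]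
          funext l
          fin_cases l
          · change (V \ (F ∪ I)).erase x = V \ (insert x F ∪ I)
            ext y
            simp only [Finset.mem_sdiff, Finset.mem_union, Finset.mem_insert, Finset.mem_erase]
            by_cases hy : y = x
            · subst hy; simp
            · simp [hy]
          · change V \ (F ∪ (S \ I)) = V \ (insert x F ∪ (S.erase x \ I))
            ext y
            simp only [Finset.mem_sdiff, Finset.mem_union, Finset.mem_insert, Finset.mem_erase]
            by_cases hy : y = x
            · subst hy; simp [hc.1, hxS]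
            · simp [hy]
          · change F ∪ (S \ J) = insert x F ∪ (S.erase x \ J)
            ext y
            simp only [Finset.mem_sdiff, Finset.mem_union, Finset.mem_insert, Finset.mem_erase]
            by_cases hy : y = x
            · subst hy; simp [hc.2, hxS]
            · simp [hy]
          · change insert x (F ∪ J) = insert x F ∪ J
            rw [Finset.insert_union]
        · rw [w1, w2]
          simp [hS hxS, hxF, hc.1, hc.2]
      · rw [if_neg hc, if_neg]
        rw [w1, w2]
        rintro ⟨h1, h2⟩
        rw [Finset.mem_sdiff, Finset.mem_union, not_or] at h1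
        rw [Finset.mem_union, not_or] at h2
        exact hc ⟨h1.2.2, h2.2⟩
  · intro x hx hxS
    rw [if_neg]
    rw [w1, w2]
    rintro ⟨h1, h2⟩
    rw [Finset.mem_sdiff, Finset.mem_union, not_or] at h1
    apply hx
    rw [Finset.mem_sdiff, Finset.mem_union, not_or]
    exact ⟨h1.1, h1.2.1, hxS⟩

omit [Fintype ι] in
/-- insertion of a fixed point -/
theorem hh_insert_fix {V F S : Finset ι} {s : Equiv.Perm ι} {x : ι} (hx : x ∉ S) (hsx : s x = x)
    (v : WW ι K) :
    hh V F (insert x S) s v = ∑ I ∈ S.powerset,
      (v (wd V F (insert x S) I (S.filter (fun y => s y ∈ I)))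
        + v (wd V F (insert x S) (insert x I) (insert x (S.filter (fun y => s y ∈ I))))) := by
  unfold hh
  rw [Finset.sum_powerset_insert hx, ← Finset.sum_add_distrib]
  apply Finset.sum_congr rfl
  intro I hI
  rw [Finset.mem_powerset] at hI
  have hxI : x ∉ I := fun h => hx (hI h)
  have e1 : (insert x S).filter (fun y => s y ∈ I) = S.filter (fun y => s y ∈ I) := by
    rw [Finset.filter_insert, if_neg]
    rw [hsx]
    exact hxI
  have e2 : (insert x S).filter (fun y => s y ∈ insert x I)
      = insert x (S.filter (fun y => s y ∈ I)) := by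
    rw [Finset.filter_insert, if_pos (by rw [hsx]; exact Finset.mem_insert_self _ _)]
    congr 1
    apply Finset.filter_congr
    intro y hy
    rw [Finset.mem_insert]
    constructor
    · rintro (h | h)
      · exfalso
        apply hx
        have : y = x := s.injective (h.trans hsx.symm)
        rw [← this]
        exact hy
      · exact h
    · exact Or.inr
  rw [e1, e2]

omit [Fintype ι] in
/-- the terms with a new double site -/
theorem hh_double [CharP K 2] {V F S : Finset ι} {s : Equiv.Perm ι} {x : ι} (hx : x ∈ S)
    (v : WW ι K) :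
    ∑ I ∈ S.powerset, ((if x ∈ I ∧ x ∈ S.filter (fun y => s y ∈ I) then
        v (wd V (insert x F) (S.erase x) (I.erase x) ((S.filter (fun y => s y ∈ I)).erase x))
        else 0)
      + (if x ∉ I ∧ x ∉ S.filter (fun y => s y ∈ I) then
        v (wd V (insert x F) (S.erase x) (I.erase x) ((S.filter (fun y => s y ∈ I)).erase x))
        else 0))
      = if s x ≠ x then hh V (insert x F) (S.erase x) (Equiv.swap x (s x) * s) v else 0 := by
  have hxe : x ∉ S.erase x := Finset.notMem_erase _ _
  have hS : S = insert x (S.erase x) := (Finset.insert_erase hx).symm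
  have hpow : ∀ f : Finset ι → K, ∑ I ∈ S.powerset, f I
      = ∑ I ∈ (S.erase x).powerset, (f I + f (insert x I)) := by
    intro f
    conv_lhs => rw [hS]
    rw [Finset.sum_powerset_insert hxe, Finset.sum_add_distrib]
  rw [hpow]
  have hmem : ∀ I : Finset ι, x ∈ S.filter (fun y => s y ∈ I) ↔ s x ∈ I := by
    intro I
    rw [Finset.mem_filter]
    exact ⟨fun h => h.2, fun h => ⟨hx, h⟩⟩
  by_cases hsx : s x = x
  · rw [if_neg (not_not.2 hsx)]
    apply Finset.sum_eq_zero
    intro I hI
    rw [Finset.mem_powerset] at hI
    have hxI : x ∉ I := fun h => hxe (hI h)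
    have c1 : ¬ (x ∈ I ∧ x ∈ S.filter (fun y => s y ∈ I)) := fun h => hxI h.1
    have c2 : x ∉ I ∧ x ∉ S.filter (fun y => s y ∈ I) := by
      refine ⟨hxI, ?_⟩
      rw [hmem, hsx]
      exact hxI
    have c3 : x ∈ insert x I ∧ x ∈ S.filter (fun y => s y ∈ insert x I) := by
      refine ⟨Finset.mem_insert_self _ _, ?_⟩
      rw [hmem, hsx]
      exact Finset.mem_insert_self _ _
    have c4 : ¬ (x ∉ insert x I ∧ x ∉ S.filter (fun y => s y ∈ insert x I)) :=
      fun h => h.1 (Finset.mem_insert_self _ _)
    rw [if_neg c1, if_pos c2, if_pos c3, if_neg c4, Finset.erase_eq_of_notMem hxI,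
      Finset.erase_insert hxI]
    have e : (S.filter (fun y => s y ∈ insert x I)).erase x
        = (S.filter (fun y => s y ∈ I)).erase x := by
      ext y
      simp only [Finset.mem_erase, Finset.mem_filter, Finset.mem_insert]
      constructor
      · rintro ⟨h1, h2, h3 | h3⟩
        · exact absurd (s.injective (h3.trans hsx.symm)) h1
        · exact ⟨h1, h2, h3⟩
      · rintro ⟨h1, h2, h3⟩
        exact ⟨h1, h2, Or.inr h3⟩
    rw [e, zero_add, add_zero, CharTwo.add_self_eq_zero]
  · rw [if_pos hsx]
    unfold hh
    apply Finset.sum_congr rfl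
    intro I hI
    rw [Finset.mem_powerset] at hI
    have hxI : x ∉ I := fun h => hxe (hI h)
    -- the set of right letters
    have key : ∀ P : Finset ι, (∀ y, y ≠ x → (y ∈ P ↔ y ∈ I)) → (x ∈ P ↔ s x ∈ I) →
        (S.filter (fun y => s y ∈ P)).erase x
          = (S.erase x).filter (fun y => (Equiv.swap x (s x) * s) y ∈ I) := by
      intro P hP hPx
      ext y
      simp only [Finset.mem_erase, Finset.mem_filter, Equiv.Perm.mul_apply]
      by_cases hyx : y = x
      · simp [hyx]
      · have h2 : s y ≠ s x := fun h => hyx (s.injective h)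
        by_cases h1 : s y = x
        · rw [h1, Equiv.swap_apply_left, hPx]
          tauto
        · rw [Equiv.swap_apply_of_ne_of_ne h1 h2, hP _ h1]
          tauto
    have c1 : ¬ (x ∈ I ∧ x ∈ S.filter (fun y => s y ∈ I)) := fun h => hxI h.1
    have c4 : ¬ (x ∉ insert x I ∧ x ∉ S.filter (fun y => s y ∈ insert x I)) :=
      fun h => h.1 (Finset.mem_insert_self _ _)
    rw [if_neg c1, if_neg c4, Finset.erase_eq_of_notMem hxI, Finset.erase_insert hxI, zero_add,
      add_zero]
    by_cases hsI : s x ∈ I
    · have c2 : ¬ (x ∉ I ∧ x ∉ S.filter (fun y => s y ∈ I)) := fun h => h.2 ((hmem I).2 hsI)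
      have c3 : x ∈ insert x I ∧ x ∈ S.filter (fun y => s y ∈ insert x I) :=
        ⟨Finset.mem_insert_self _ _, (hmem _).2 (Finset.mem_insert_of_mem hsI)⟩
      rw [if_neg c2, if_pos c3, zero_add, key (insert x I)]
      · intro y hy
        rw [Finset.mem_insert]
        exact ⟨fun h => h.resolve_left hy, Or.inr⟩
      · exact ⟨fun _ => hsI, fun _ => Finset.mem_insert_self _ _⟩
    · have c2 : x ∉ I ∧ x ∉ S.filter (fun y => s y ∈ I) := ⟨hxI, fun h => hsI ((hmem I).1 h)⟩
      have c3 : ¬ (x ∈ insert x I ∧ x ∈ S.filter (fun y => s y ∈ insert x I)) := by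
        rintro ⟨_, h⟩
        rw [hmem, Finset.mem_insert] at h
        exact h.elim hsx hsI
      rw [if_pos c2, if_neg c3, add_zero, key I]
      · intro y _
        exact Iff.rfl
      · exact ⟨fun h => absurd h hxI, fun h => absurd h hsI⟩

/-- **the E-rule** -/
theorem E_rule [CharP K 2] {V F S : Finset ι} {s : Equiv.Perm ι} (hs : ∀ x, x ∉ S → s x = x)
    (_hF : F ⊆ V) (hS : S ⊆ V) (hFS : Disjoint F S) {v : WW ι K} (hv : Prm v) :
    ∑ x ∈ V \ (F ∪ S), hh V F (insert x S) s v
      + ∑ x ∈ S.filter (fun x => s x ≠ x),
          hh V (insert x F) (S.erase x) (Equiv.swap x (s x) * s) v = 0 := by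
  have h0 : ∑ I ∈ S.powerset, (rai 1 2 v (wd V F S I (S.filter (fun y => s y ∈ I)))
      + rai 0 3 v (wd V F S I (S.filter (fun y => s y ∈ I)))) = 0 := by
    apply Finset.sum_eq_zero
    intro I _
    rw [rai_zero hv 1 2 (by decide), rai_zero hv 0 3 (by decide)]
    simp
  have h1 : ∑ I ∈ S.powerset, (rai 1 2 v (wd V F S I (S.filter (fun y => s y ∈ I)))
      + rai 0 3 v (wd V F S I (S.filter (fun y => s y ∈ I))))
      = ∑ x ∈ V \ (F ∪ S), hh V F (insert x S) s v
      + ∑ x ∈ S, if s x ≠ x then
          hh V (insert x F) (S.erase x) (Equiv.swap x (s x) * s) v else 0 := by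
    have h2 : ∀ I ∈ S.powerset, (rai 1 2 v (wd V F S I (S.filter (fun y => s y ∈ I)))
      + rai 0 3 v (wd V F S I (S.filter (fun y => s y ∈ I))))
        = ∑ x ∈ V \ (F ∪ S), (v (wd V F (insert x S) I (S.filter (fun y => s y ∈ I)))
          + v (wd V F (insert x S) (insert x I) (insert x (S.filter (fun y => s y ∈ I)))))
        + ∑ x ∈ S, ((if x ∈ I ∧ x ∈ S.filter (fun y => s y ∈ I) then
            v (wd V (insert x F) (S.erase x) (I.erase x) ((S.filter (fun y => s y ∈ I)).erase x))
            else 0)
          + (if x ∉ I ∧ x ∉ S.filter (fun y => s y ∈ I) then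
            v (wd V (insert x F) (S.erase x) (I.erase x) ((S.filter (fun y => s y ∈ I)).erase x))
            else 0)) := by
      intro I hI
      rw [Finset.mem_powerset] at hI
      rw [rai12_wd hI (Finset.filter_subset _ _) hS hFS,
        rai03_wd hI (Finset.filter_subset _ _) hS hFS, Finset.sum_add_distrib,
        Finset.sum_add_distrib]
      ring
    rw [Finset.sum_congr rfl h2, Finset.sum_add_distrib, Finset.sum_comm]
    congr 1
    · apply Finset.sum_congr rfl
      intro x hx
      rw [Finset.mem_sdiff, Finset.mem_union, not_or] at hx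
      rw [hh_insert_fix hx.2.2 (hs x hx.2.2)]
    · rw [Finset.sum_comm]
      apply Finset.sum_congr rfl
      intro x hx
      exact hh_double hx v
  rw [h1] at h0
  rw [Finset.sum_filter]
  exact h0

end MP_d81877_alP
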